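import Pool.Agent.Helper244.Br.Final

/-! # Weighted Brouwer inequality from Brouwer's inequality for projections -/

set_option autoImplicit false

namespace Pool.Agent.T2H88.WBr

open Finset Matrix

variable {V : Type} [Fintype V] [DecidableEq V]

/-- the projection matrix on the span of some members of an orthonormal basis -/
noncomputable def pr (b : OrthonormalBasis V ℝ (EuclideanSpace ℝ V)) (T : Finset V) : Matrix V V ℝ :=
  Matrix.of fun i j => ∑ a ∈ T, b a i * b a j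

theorem pr_symm (b : OrthonormalBasis V ℝ (EuclideanSpace ℝ V)) (T : Finset V) :
    (pr b T)ᵀ = pr b T := by
  ext i j
  simp only [pr, Matrix.transpose_apply, Matrix.of_apply]
  exact Finset.sum_congr rfl fun a _ => mul_comm _ _

theorem pr_idem (b : OrthonormalBasis V ℝ (EuclideanSpace ℝ V)) (T : Finset V) :
    pr b T * pr b T = pr b T := by
  ext i j
  rw [Matrix.mul_apply]
  simp only [pr, Matrix.of_apply]
  have : ∀ l, (∑ a ∈ T, b a i * b a l) * (∑ c ∈ T, b c l * b c j) =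
      ∑ a ∈ T, ∑ c ∈ T, (b a i * b c j) * (b a l * b c l) := by
    intro l
    rw [Finset.sum_mul_sum]
    apply Finset.sum_congr rfl; intro a _
    apply Finset.sum_congr rfl; intro c _
    ring
  rw [Finset.sum_congr rfl fun l _ => this l, Finset.sum_comm]
  apply Finset.sum_congr rfl; intro a ha
  rw [Finset.sum_comm]
  simp_rw [← Finset.mul_sum, Pool.Helper237.Brouwer.inner_sum]
  simp [ha]

theorem pr_trace (b : OrthonormalBasis V ℝ (EuclideanSpace ℝ V)) (T : Finset V) :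
    ∑ i, pr b T i i = T.card := by
  simp only [pr, Matrix.of_apply]
  rw [Finset.sum_comm]
  have : ∀ a ∈ T, ∑ i, b a i * b a i = 1 := by
    intro a _
    rw [Pool.Helper237.Brouwer.inner_sum]; simp
  rw [Finset.sum_congr rfl this]; simp

/-- `t_ij ≤ 2` for an orthogonal projection -/
theorem t_le_two (P : Matrix V V ℝ) (hPs : Pᵀ = P) (hPi : P * P = P) (i j : V) (hij : i ≠ j) :
    P i i + P j j - 2 * P i j ≤ 2 := by
  have hsym : ∀ i j, P i j = P j i := fun i j => by
    conv_lhs => rw [← hPs]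
    rfl
  have hmul : ∀ i j, ∑ l, P i l * P l j = P i j := fun i j => by
    have := congrFun (congrFun hPi i) j
    rwa [Matrix.mul_apply] at this
  have h1 : ∑ l, (P l i - P l j) ^ 2 = P i i + P j j - 2 * P i j := by
    have : ∀ l, (P l i - P l j) ^ 2 = P i l * P l i - P i l * P l j - P i l * P l j + P j l * P l j := by
      intro l; rw [hsym i l, hsym j l]; ring
    simp only [this, Finset.sum_add_distrib, Finset.sum_sub_distrib, hmul]
    ring
  set t := P i i + P j j - 2 * P i j with ht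
  have h2 : (P i i - P i j) ^ 2 + (P j i - P j j) ^ 2 ≤ t := by
    rw [← h1]
    have : ∑ l ∈ ({i, j} : Finset V), (P l i - P l j) ^ 2 ≤ ∑ l, (P l i - P l j) ^ 2 :=
      Finset.sum_le_sum_of_subset_of_nonneg (Finset.subset_univ _) fun _ _ _ => sq_nonneg _
    rwa [Finset.sum_pair hij] at this
  have h3 : (P i i - P i j) - (P j i - P j j) = t := by rw [ht, hsym j i]; ring
  have h4 : t ^ 2 ≤ 2 * t := by
    rw [← h3] at h2 ⊢
    nlinarith [sq_nonneg ((P i i - P i j) + (P j i - P j j))]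
  nlinarith [sq_nonneg (t - 2)]

/-- fractional knapsack -/
theorem knap {α : Type} [DecidableEq α] (U P : Finset α) (hPU : P ⊆ U) (w x : α → ℝ) (lam : ℝ)
    (hlam : 0 ≤ lam) (h1 : ∀ p ∈ P, lam ≤ w p) (h2 : ∀ q ∈ U \ P, w q ≤ lam) (hw : ∀ p, 0 ≤ w p)
    (hx0 : ∀ p, 0 ≤ x p) (hx1 : ∀ p ∈ P, x p ≤ 1) (hs : ∑ p ∈ U, x p ≤ P.card) :
    ∑ p ∈ U, w p * x p ≤ ∑ p ∈ P, w p := by
  have e1 : ∑ p ∈ U, w p * x p = ∑ p ∈ U \ P, w p * x p + ∑ p ∈ P, w p * x p :=
    (Finset.sum_sdiff hPU).symm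
  have e2 : ∑ p ∈ U, x p = ∑ p ∈ U \ P, x p + ∑ p ∈ P, x p := (Finset.sum_sdiff hPU).symm
  have a1 : ∑ p ∈ U \ P, w p * x p ≤ ∑ p ∈ U \ P, lam * x p :=
    Finset.sum_le_sum fun q hq => mul_le_mul_of_nonneg_right (h2 q hq) (hx0 q)
  have a2 : ∑ p ∈ P, lam * (1 - x p) ≤ ∑ p ∈ P, w p * (1 - x p) :=
    Finset.sum_le_sum fun q hq => mul_le_mul_of_nonneg_right (h1 q hq) (by linarith [hx1 q hq])
  have a3 : ∑ p ∈ P, w p * (1 - x p) = ∑ p ∈ P, w p - ∑ p ∈ P, w p * x p := by
    rw [← Finset.sum_sub_distrib]; exact Finset.sum_congr rfl fun p _ => by ring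
  have a4 : ∑ p ∈ P, lam * (1 - x p) = lam * P.card - lam * ∑ p ∈ P, x p := by
    rw [← Finset.mul_sum, Finset.sum_sub_distrib]; simp; ring
  have a5 : ∑ p ∈ U \ P, lam * x p = lam * ∑ p ∈ U \ P, x p := by rw [Finset.mul_sum]
  have a6 : lam * (∑ p ∈ U \ P, x p + ∑ p ∈ P, x p) ≤ lam * P.card := by
    rw [← e2]; exact mul_le_mul_of_nonneg_left hs hlam
  rw [e1]
  nlinarith

/-- a set of `N` members of `U` of largest weight, with a threshold -/
theorem exists_top {α : Type} [DecidableEq α] (U : Finset α) (w : α → ℝ) (hw : ∀ p, 0 ≤ w p) (N : ℕ)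
    (hN : N ≤ U.card) (hN1 : 1 ≤ N) :
    ∃ P ⊆ U, P.card = N ∧ ∃ lam : ℝ, 0 ≤ lam ∧ (∀ p ∈ P, lam ≤ w p) ∧ ∀ q ∈ U \ P, w q ≤ lam := by
  have hne : (U.powersetCard N).Nonempty := Finset.powersetCard_nonempty.2 hN
  obtain ⟨P, hP, hmax⟩ := Finset.exists_max_image _ (fun S => ∑ p ∈ S, w p) hne
  rw [Finset.mem_powersetCard] at hP
  obtain ⟨hPU, hPc⟩ := hP
  have hPne : P.Nonempty := by
    rw [← Finset.card_pos]; omega
  obtain ⟨a, ha, hmin⟩ := Finset.exists_min_image P w hPne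
  refine ⟨P, hPU, hPc, w a, hw a, hmin, ?_⟩
  intro q hq
  rw [Finset.mem_sdiff] at hq
  by_contra hlt
  push Not at hlt
  have hqa : q ≠ a := fun h => hq.2 (h ▸ ha)
  have hq' : q ∉ P.erase a := fun h => hq.2 (Finset.mem_of_mem_erase h)
  have hmem : insert q (P.erase a) ∈ U.powersetCard N := by
    rw [Finset.mem_powersetCard]
    refine ⟨?_, ?_⟩
    · intro x hx
      rcases Finset.mem_insert.1 hx with rfl | hx
      · exact hq.1
      · exact hPU (Finset.mem_of_mem_erase hx)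
    · rw [Finset.card_insert_of_notMem hq', Finset.card_erase_of_mem ha]; omega
  have := hmax _ hmem
  rw [Finset.sum_insert hq'] at this
  have h2 := Finset.add_sum_erase P w ha
  linarith

end Pool.Agent.T2H88.WBr
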