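import Mathlib
import Pool.Agent.T2H88.WBr

set_option autoImplicit false


namespace Pool.Agent.T2H88.WBrMain

open Finset Matrix Pool.Agent.T2H88.WBr

/-- the quadratic form of the Laplacian of a weighted graph -/
theorem quad (n : ℕ) (A : Matrix (Fin n) (Fin n) ℝ) (hs : A.IsSymm) (u : Fin n → ℝ) :
    2 * (u ⬝ᵥ (Matrix.diagonal (fun i => ∑ j, A i j) - A).mulVec u)
      = ∑ i, ∑ j, A i j * (u i - u j) ^ 2 := by
  have hsym : ∀ i j, A i j = A j i := fun i j => (hs.apply i j).symm
  have e1 : u ⬝ᵥ (Matrix.diagonal (fun i => ∑ j, A i j) - A).mulVec u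
      = ∑ i, ∑ j, (A i j * u i ^ 2 - A i j * (u i * u j)) := by
    have hd : ∀ i, (Matrix.diagonal (fun i => ∑ j, A i j)).mulVec u i = (∑ j, A i j) * u i :=
      fun i => Matrix.mulVec_diagonal _ _ i
    have hA : ∀ i, A.mulVec u i = ∑ j, A i j * u j := fun i => rfl
    rw [Matrix.sub_mulVec, dotProduct_sub]
    simp only [dotProduct, hd, hA, Finset.sum_sub_distrib]
    congr 1
    · apply Finset.sum_congr rfl; intro i _
      rw [← Finset.sum_mul]; ring
    · apply Finset.sum_congr rfl; intro i _
      rw [Finset.mul_sum]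
      apply Finset.sum_congr rfl; intro j _
      ring
  have e2 : ∑ i, ∑ j, (A i j * u i ^ 2 - A i j * (u i * u j))
      = ∑ i, ∑ j, (A i j * u j ^ 2 - A i j * (u i * u j)) := by
    rw [Finset.sum_comm]
    apply Finset.sum_congr rfl; intro i _
    apply Finset.sum_congr rfl; intro j _
    rw [hsym j i]; ring
  rw [two_mul]
  nth_rewrite 2 [e1]
  rw [e1, e2]
  nth_rewrite 1 [← e2]
  rw [← Finset.sum_add_distrib]
  apply Finset.sum_congr rfl; intro i _
  rw [← Finset.sum_add_distrib]
  apply Finset.sum_congr rfl; intro j _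
  ring

/-- For every symmetric nonnegative zero-diagonal real matrix and each k from 1 to n−1, the sum of the k largest Laplacian eigenvalues is at most the total edge weight plus the sum of the C(k+1,2) largest off-diagonal weights. -/
theorem result :
    ∀ (n : ℕ) (A : Matrix (Fin n) (Fin n) ℝ), A.IsSymm → (∀ i j, 0 ≤ A i j) → (∀ i, A i i = 0) →
      ∀ (hL : (Matrix.diagonal (fun i => ∑ j, A i j) - A).IsHermitian),
      ∀ k : ℕ, 1 ≤ k → k ≤ n - 1 →
      ∀ s : Finset (Fin n), s.card = k →
        ∃ P : Finset (Fin n × Fin n), P.card = (k + 1).choose 2 ∧ (∀ p ∈ P, p.1 < p.2) ∧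
          ∑ i ∈ s, hL.eigenvalues i ≤
            (∑ i, ∑ j, if i < j then A i j else 0) + ∑ p ∈ P, A p.1 p.2 := by
  classical
  intro n A hs hnn hdiag hL k hk1 hkn s hsk
  have hAsym : ∀ i j, A i j = A j i := fun i j => (hs.apply i j).symm
  set b := hL.eigenvectorBasis with hb
  set T := s.filter (fun a => hL.eigenvalues a ≠ 0) with hT
  have hsumT : ∑ a ∈ s, hL.eigenvalues a = ∑ a ∈ T, hL.eigenvalues a := by
    rw [hT, Finset.sum_filter_ne_zero]
  have hTk : T.card ≤ k := hsk ▸ Finset.card_filter_le _ _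
  set P := pr b T with hP
  have hPs : Pᵀ = P := pr_symm b T
  have hPi : P * P = P := pr_idem b T
  have hPtr : ∑ i, P i i = T.card := pr_trace b T
  have hPsym : ∀ i j, P i j = P j i := fun i j => by
    conv_lhs => rw [← hPs]
    rfl
  -- eigenvectors for nonzero eigenvalues are orthogonal to 1
  have hone : ∀ a, hL.eigenvalues a ≠ 0 → ∑ i, b a i = 0 := by
    intro a ha
    set u : Fin n → ℝ := fun i => b a i with hu
    have h1 := hL.mulVec_eigenvectorBasis a
    have h3 : (Matrix.diagonal (fun i => ∑ j, A i j) - A).mulVec u = hL.eigenvalues a • u := h1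
    have h2 : (fun _ : Fin n => (1:ℝ)) ⬝ᵥ (Matrix.diagonal (fun i => ∑ j, A i j) - A).mulVec u = 0 := by
      have hd : ∀ i, (Matrix.diagonal (fun i => ∑ j, A i j)).mulVec u i = (∑ j, A i j) * u i :=
        fun i => Matrix.mulVec_diagonal _ _ i
      have hA : ∀ i, A.mulVec u i = ∑ j, A i j * u j := fun i => rfl
      rw [Matrix.sub_mulVec, dotProduct_sub]
      simp only [dotProduct, hd, hA, one_mul]
      rw [sub_eq_zero]
      conv_rhs => rw [Finset.sum_comm]
      apply Finset.sum_congr rfl; intro i _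
      rw [← Finset.sum_mul]
      congr 1
      exact Finset.sum_congr rfl fun j _ => hAsym i j
    rw [h3, dotProduct_smul] at h2
    have h4 : (fun _ : Fin n => (1:ℝ)) ⬝ᵥ u = ∑ i, u i := by simp [dotProduct]
    rw [h4, smul_eq_mul] at h2
    rcases mul_eq_zero.1 h2 with h5 | h5
    · exact absurd h5 ha
    · exact h5
  have hP1 : ∀ i, ∑ j, P i j = 0 := by
    intro i
    simp only [hP, pr, Matrix.of_apply]
    rw [Finset.sum_comm]
    apply Finset.sum_eq_zero
    intro a ha
    rw [← Finset.mul_sum, hone a (Finset.mem_filter.1 ha).2, mul_zero]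
  -- eigenvalue sum as a weighted sum over pairs
  have heig : 2 * ∑ a ∈ T, hL.eigenvalues a = ∑ i, ∑ j, A i j * (P i i + P j j - 2 * P i j) := by
    have h1 : ∀ a, 2 * hL.eigenvalues a = ∑ i, ∑ j, A i j * (b a i - b a j) ^ 2 := by
      intro a
      rw [hL.eigenvalues_eq a]
      simp only [star_trivial, RCLike.re_to_real]
      have := quad n A hs (fun i => b a i)
      rw [← this]
    rw [Finset.mul_sum, Finset.sum_congr rfl fun a _ => h1 a, Finset.sum_comm]
    apply Finset.sum_congr rfl; intro i _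
    rw [Finset.sum_comm]
    apply Finset.sum_congr rfl; intro j _
    rw [← Finset.mul_sum]
    congr 1
    simp only [hP, pr, Matrix.of_apply]
    rw [Finset.mul_sum, ← Finset.sum_add_distrib, ← Finset.sum_sub_distrib]
    apply Finset.sum_congr rfl; intro a _
    ring
  -- Brouwer's inequality for the relation 0 < x
  set x : Fin n → Fin n → ℝ := fun i j => P i i + P j j - 2 * P i j - 1 with hx
  have hxsym : ∀ i j, x i j = x j i := fun i j => by simp only [hx, hPsym i j]; ring
  have hcore := Pool.Br.core_of_cut P hPs hPi hP1 (fun i j => 0 < x i j)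
    (fun i j h => by rw [← hxsym i j]; exact h)
    (fun S => Pool.Br.cut P hPs hPi hP1 (fun i j => 0 < x i j) S)
  have hmaxx : ∀ i j, (if 0 < x i j then (P i i + P j j - 2 * P i j - 1) else 0) = max (x i j) 0 := by
    intro i j
    split_ifs with h
    · rw [max_eq_left h.le]
    · rw [max_eq_right (not_lt.1 h)]
  simp only [hmaxx] at hcore
  rw [hPtr] at hcore
  -- sums over pairs
  set U : Finset (Fin n × Fin n) := univ.filter fun p => p.1 < p.2 with hU
  have hpairs : ∀ f : Fin n → Fin n → ℝ, (∀ i j, f i j = f j i) → (∀ i, f i i = 0) →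
      ∑ i, ∑ j, f i j = 2 * ∑ p ∈ U, f p.1 p.2 := by
    intro f hf hf0
    have e0 : ∑ p ∈ U, f p.1 p.2 = ∑ i, ∑ j, (if i < j then f i j else 0) := by
      rw [hU, Finset.sum_filter, ← Finset.univ_product_univ, Finset.sum_product]
    have e1 : ∑ i, ∑ j, (if i < j then f i j else 0) = ∑ i, ∑ j, (if j < i then f i j else 0) := by
      rw [Finset.sum_comm]
      apply Finset.sum_congr rfl; intro i _
      apply Finset.sum_congr rfl; intro j _
      rw [hf j i]
    rw [two_mul, e0]
    nth_rewrite 2 [e1]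
    rw [← Finset.sum_add_distrib]
    apply Finset.sum_congr rfl; intro i _
    rw [← Finset.sum_add_distrib]
    apply Finset.sum_congr rfl; intro j _
    rcases lt_trichotomy i j with h | h | h
    · rw [if_pos h, if_neg (not_lt.2 h.le), add_zero]
    · subst h; simp [hf0]
    · rw [if_neg (not_lt.2 h.le), if_pos h, zero_add]
  have hxd : ∀ i, x i i = -1 := fun i => by simp only [hx]; ring
  have hU1 : ∑ p ∈ U, max (x p.1 p.2) 0 ≤ ((k + 1).choose 2 : ℕ) := by
    have h := hpairs (fun i j => max (x i j) 0) (fun i j => by simp only [hxsym i j])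
      (fun i => by simp [hxd])
    rw [h] at hcore
    have hc : (((k + 1).choose 2 : ℕ) : ℝ) = ((k:ℝ) ^ 2 + k) / 2 := by
      rw [Nat.cast_choose_two]; push_cast; ring
    rw [hc]
    have hTk' : (T.card : ℝ) ≤ k := by exact_mod_cast hTk
    have h0 : (0:ℝ) ≤ T.card := Nat.cast_nonneg _
    nlinarith
  have hUcard : U.card = n.choose 2 := by
    have h1 : (U.card : ℝ) = n.choose 2 := by
      have h := hpairs (fun i j => if i = j then 0 else 1) (fun i j => by simp only [eq_comm])
        (fun i => by simp)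
      have h2 : ∑ p ∈ U, (if p.1 = p.2 then (0:ℝ) else 1) = U.card := by
        rw [Finset.sum_congr rfl (g := fun _ => (1:ℝ))]
        · simp
        · intro p hp
          rw [hU, Finset.mem_filter] at hp
          rw [if_neg (ne_of_lt hp.2)]
      rw [h2] at h
      have h3 : ∑ i : Fin n, ∑ j : Fin n, (if i = j then (0:ℝ) else 1) = (n:ℝ) * (n - 1) := by
        have h4 : ∀ i : Fin n, ∑ j : Fin n, (if i = j then (0:ℝ) else 1) = (n:ℝ) - 1 := by
          intro i
          have h5 : ∀ j : Fin n, (if i = j then (0:ℝ) else 1) = 1 - (if i = j then (1:ℝ) else 0) := by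
            intro j
            by_cases h : i = j
            · rw [if_pos h, if_pos h]; ring
            · rw [if_neg h, if_neg h]; ring
          rw [Finset.sum_congr rfl fun j _ => h5 j, Finset.sum_sub_distrib, Finset.sum_ite_eq]
          simp
        rw [Finset.sum_congr rfl fun i _ => h4 i, Finset.sum_const, nsmul_eq_mul, Finset.card_univ,
          Fintype.card_fin]
      rw [h3] at h
      rw [Nat.cast_choose_two]
      linarith
    exact_mod_cast h1
  obtain ⟨Q, hQU, hQc, lam, hlam, hl1, hl2⟩ := exists_top U (fun p => A p.1 p.2)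
    (fun p => hnn _ _) ((k + 1).choose 2)
    (by rw [hUcard]; exact Nat.choose_le_choose 2 (by omega))
    (by exact Nat.succ_le_of_lt (Nat.choose_pos (by omega)))
  refine ⟨Q, hQc, fun p hp => (Finset.mem_filter.1 (hQU hp)).2, ?_⟩
  have hkn' := knap U Q hQU (fun p => A p.1 p.2) (fun p => max (x p.1 p.2) 0) lam hlam hl1 hl2
    (fun p => hnn _ _) (fun p => le_max_right _ _)
    (fun p hp => by
      have hne : p.1 ≠ p.2 := ne_of_lt (Finset.mem_filter.1 (hQU hp)).2
      refine max_le ?_ zero_le_one
      have := t_le_two P hPs hPi p.1 p.2 hne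
      simp only [hx]; linarith)
    (by rw [hQc]; exact hU1)
  have hge : ∑ p ∈ U, A p.1 p.2 * x p.1 p.2 ≤ ∑ p ∈ U, A p.1 p.2 * max (x p.1 p.2) 0 :=
    Finset.sum_le_sum fun p _ => mul_le_mul_of_nonneg_left (le_max_left _ _) (hnn _ _)
  have hfin : ∑ a ∈ T, hL.eigenvalues a = ∑ p ∈ U, A p.1 p.2 + ∑ p ∈ U, A p.1 p.2 * x p.1 p.2 := by
    have h := hpairs (fun i j => A i j * (P i i + P j j - 2 * P i j))
      (fun i j => by simp only [hAsym i j, hPsym i j]; ring) (fun i => by simp [hdiag])
    rw [← heig] at h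
    rw [← Finset.sum_add_distrib]
    have h2 : ∑ a ∈ T, hL.eigenvalues a
        = ∑ p ∈ U, A p.1 p.2 * (P p.1 p.1 + P p.2 p.2 - 2 * P p.1 p.2) := by linarith
    rw [h2]
    apply Finset.sum_congr rfl; intro p _
    simp only [hx]; ring
  have hUA : ∑ p ∈ U, A p.1 p.2 = ∑ i, ∑ j, (if i < j then A i j else 0) := by
    rw [hU, Finset.sum_filter, ← Finset.univ_product_univ, Finset.sum_product]
  rw [hsumT, hfin, hUA]
  linarith

end Pool.Agent.T2H88.WBrMain
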